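import Pool.Agent.R881.CubeCech

/-!
MP_117f64_co, Q1: for every `n ≥ 1` and `r ≥ 0` the inclusion of the Čech complex `𝒩(𝕀_n, r)` of the
`n`-dimensional hypercube graph into `𝒩(𝕀_n, r+1)` is null-homotopic.
-/

namespace Pool.Agent.Results.MP_117f64_co.InclusionsNullhomotopic

open Pool.Agent.R881.CubeCech

/-- The inclusion of geometric realizations `𝒩(𝕀_n, r) ↪ 𝒩(𝕀_n, r+1)` is null-homotopic for all
`n ≥ 1` and all `r ≥ 0`. (`incl hn r` is the continuous map which is the identity on barycentric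
coordinates.) -/
theorem result (n : ℕ) (hn : 1 ≤ n) (r : ℕ) :
    (∀ p : Geo (N n r), (incl hn r p).1 = p.1) ∧ (incl hn r).Nullhomotopic :=
  ⟨fun _ => rfl, incl_nullhomotopic hn r⟩

end Pool.Agent.Results.MP_117f64_co.InclusionsNullhomotopic
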